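import Mathlib

set_option autoImplicit false

namespace Pool.Agent.Results.MP_3f3880_lc.Counter

open Finset

section
variable {V : Type} {G : SimpleGraph V} {s t : V}

def Adm (G : SimpleGraph V) (α : ℝ) (w : Sym2 V → ℝ) : Prop :=
  ∀ e ∈ G.edgeSet, 1 ≤ w e ∧ w e ≤ α

def Covers (p : G.Walk s t) : Prop := ∀ v, v ∈ p.support

def cost (w : Sym2 V → ℝ) (p : G.Walk s t) : ℝ := (p.edges.map w).sum

noncomputable def OPT (G : SimpleGraph V) (s t : V) (w : Sym2 V → ℝ) : ℝ :=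
  sInf {c | ∃ p : G.Walk s t, Covers p ∧ c = cost w p}

structure Online (G : SimpleGraph V) (s t : V) (α : ℝ) where
  walk : (Sym2 V → ℝ) → G.Walk s t
  covers : ∀ w, Adm G α w → Covers (walk w)
  causal : ∀ w w', Adm G α w → Adm G α w' → ∀ k : ℕ,
    (∀ i ≤ k, (walk w).getVert i = (walk w').getVert i) →
    (∀ i ≤ k, ∀ v, G.Adj ((walk w).getVert i) v →
      w s((walk w).getVert i, v) = w' s((walk w).getVert i, v)) →
    (walk w).getVert (k + 1) = (walk w').getVert (k + 1)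

theorem cost_eq (w : Sym2 V → ℝ) (p : G.Walk s t) :
    cost w p = ∑ i ∈ range p.length, w s(p.getVert i, p.getVert (i + 1)) := by
  induction p with
  | nil => simp [cost]
  | cons h p ih =>
    simp only [cost] at ih
    rw [SimpleGraph.Walk.length_cons, sum_range_succ']
    simp only [cost, SimpleGraph.Walk.edges_cons, List.map_cons, List.sum_cons, ih,
      SimpleGraph.Walk.getVert_cons_succ, SimpleGraph.Walk.getVert_zero]
    ring

theorem cost_ge {α : ℝ} {w : Sym2 V → ℝ} (hw : Adm G α w) (p : G.Walk s t) :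
    (p.length : ℝ) ≤ cost w p := by
  rw [cost_eq]
  simpa using card_nsmul_le_sum (range p.length) _ (1 : ℝ) fun i hi =>
    (hw _ (p.adj_getVert_succ (mem_range.1 hi))).1
end

def E : List (Fin 8 × Fin 8) := [(0, 1), (0, 3), (1, 2), (1, 4), (1, 5), (2, 3), (2, 6), (2, 7),
  (3, 4), (3, 5), (4, 5), (4, 6), (5, 6), (6, 7)]

def G : SimpleGraph (Fin 8) where
  Adj a b := (a, b) ∈ E ∨ (b, a) ∈ E
  symm := ⟨fun _ _ h => h.symm⟩
  loopless := ⟨by decide⟩

instance : DecidableRel G.Adj := fun a b => inferInstanceAs (Decidable ((a, b) ∈ E ∨ (b, a) ∈ E))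

def P : Fin 16 → Fin 8 → Fin 8 := ![![0, 1, 2, 3, 4, 5, 6, 7], ![0, 1, 2, 3, 5, 4, 6, 7],
  ![0, 1, 4, 3, 5, 6, 2, 7], ![0, 1, 4, 5, 3, 2, 6, 7], ![0, 1, 4, 6, 5, 3, 2, 7],
  ![0, 1, 5, 3, 4, 6, 2, 7], ![0, 1, 5, 4, 3, 2, 6, 7], ![0, 1, 5, 6, 4, 3, 2, 7],
  ![0, 3, 2, 1, 4, 5, 6, 7], ![0, 3, 2, 1, 5, 4, 6, 7], ![0, 3, 4, 1, 5, 6, 2, 7],
  ![0, 3, 4, 5, 1, 2, 6, 7], ![0, 3, 4, 6, 5, 1, 2, 7], ![0, 3, 5, 1, 4, 6, 2, 7],
  ![0, 3, 5, 4, 1, 2, 6, 7], ![0, 3, 5, 6, 4, 1, 2, 7]]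

def B : Fin 16 → List (Fin 8 × Fin 8) := ![
  [(0, 1), (0, 3), (2, 3), (3, 4), (3, 5), (4, 5), (5, 6), (6, 7)],
  [(0, 1), (0, 3), (2, 3), (3, 4), (3, 5), (4, 5), (4, 6), (6, 7)],
  [(0, 1), (0, 3), (2, 6), (2, 7), (3, 5), (5, 6)], [(0, 1), (0, 3), (2, 3), (2, 6), (3, 5), (6, 7)],
  [(0, 1), (0, 3), (2, 3), (2, 7), (3, 5), (5, 6)], [(0, 1), (0, 3), (2, 6), (2, 7), (3, 4), (4, 6)],
  [(0, 1), (0, 3), (2, 3), (2, 6), (3, 4), (6, 7)], [(0, 1), (0, 3), (2, 3), (2, 7), (3, 4), (4, 6)],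
  [(0, 1), (0, 3), (1, 2), (1, 4), (1, 5), (4, 5), (5, 6), (6, 7)],
  [(0, 1), (0, 3), (1, 2), (1, 4), (1, 5), (4, 5), (4, 6), (6, 7)],
  [(0, 1), (0, 3), (1, 5), (2, 6), (2, 7), (5, 6)], [(0, 1), (0, 3), (1, 2), (1, 5), (2, 6), (6, 7)],
  [(0, 1), (0, 3), (1, 2), (1, 5), (2, 7), (5, 6)], [(0, 1), (0, 3), (1, 4), (2, 6), (2, 7), (4, 6)],
  [(0, 1), (0, 3), (1, 2), (1, 4), (2, 6), (6, 7)], [(0, 1), (0, 3), (1, 2), (1, 4), (2, 7), (4, 6)]]

def o : Fin 16 → Fin 16 := ![13, 10, 9, 12, 11, 8, 15, 14, 5, 2, 1, 4, 3, 0, 7, 6]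

def hv (j : Fin 16) (a b : Fin 8) : ℕ := if (a, b) ∈ B j ∨ (b, a) ∈ B j then 1 else 0

noncomputable def W (j : Fin 16) : Sym2 (Fin 8) → ℝ :=
  Sym2.lift ⟨fun a b => 1 + (hv j a b : ℝ) / 20, fun a b => by simp only [hv, or_comm]⟩

def ct (j i : Fin 16) : ℕ := hv j (P i 0) (P i 1) + hv j (P i 1) (P i 2) + hv j (P i 2) (P i 3) +
  hv j (P i 3) (P i 4) + hv j (P i 4) (P i 5) + hv j (P i 5) (P i 6) + hv j (P i 6) (P i 7)

theorem d1 : ∀ j, ct j (o j) + 4 ≤ ct j j ∧ ct j (o j) ≤ 2 := by decide +kernel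

theorem d2 : ∀ j j', ∀ k : Fin 8, (∀ i ≤ k, P j i = P j' i) → ∀ v, hv j (P j k) v = hv j' (P j k) v := by
  decide +kernel

set_option synthInstance.maxSize 4000 in
theorem d3 : ∀ a, G.Adj 0 a → ∀ b, G.Adj a b → ∀ c, G.Adj b c → ∀ d, G.Adj c d → ∀ e, G.Adj d e →
    ∀ f, G.Adj e f → G.Adj f 7 → (∀ v, v ∈ [0, a, b, c, d, e, f, 7]) →
    ∃ j, P j = ![0, a, b, c, d, e, f, 7] := by
  decide +kernel

theorem d4 : ∀ j, P j 0 = 0 ∧ P j 7 = 7 ∧ G.Adj 0 (P j 1) ∧ G.Adj (P j 1) (P j 2) ∧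
    G.Adj (P j 2) (P j 3) ∧ G.Adj (P j 3) (P j 4) ∧ G.Adj (P j 4) (P j 5) ∧
    G.Adj (P j 5) (P j 6) ∧ G.Adj (P j 6) 7 ∧
    ∀ v, v ∈ [0, P j 1, P j 2, P j 3, P j 4, P j 5, P j 6, 7] := by decide +kernel

theorem adm (j : Fin 16) : Adm G (21 / 20) (W j) := by
  intro e _
  induction e using Sym2.ind with
  | _ a b => simp only [W, Sym2.lift_mk, hv]; split_ifs <;> norm_num

theorem opt (j : Fin 16) : OPT G 0 7 (W j) ≤ 7 + (ct j (o j) : ℝ) / 20 := by
  obtain ⟨h0, h7, a1, a2, a3, a4, a5, a6, a7, h⟩ := d4 (o j)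
  refine csInf_le ⟨0, ?_⟩ ⟨.cons a1 (.cons a2 (.cons a3 (.cons a4 (.cons a5 (.cons a6
    (.cons a7 .nil)))))), h, ?_⟩
  · rintro _ ⟨p, -, rfl⟩
    exact le_trans (by positivity) (cost_ge (adm j) p)
  · simp [cost, W, ct, h0, h7]
    ring

theorem ham (j : Fin 16) (p : G.Walk 0 7) (hp : Covers p)
    (h : cost (W j) p ≤ (1 + 21 / 20) / 2 * OPT G 0 7 (W j)) :
    ∃ i, i ≠ j ∧ ∀ k : Fin 8, p.getVert k = P i k := by
  have a1 := opt j
  have a2 := cost_ge (adm j) p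
  have a3 : (ct j (o j) : ℝ) ≤ 2 := by exact_mod_cast (d1 j).2
  have a4 : p.length < 8 := by
    have : (p.length : ℝ) < 8 := by linarith
    exact_mod_cast this
  have a5 : 8 ≤ p.support.length := by
    have : p.support.toFinset = univ := eq_univ_of_forall fun v => List.mem_toFinset.2 (hp v)
    simpa [this] using p.support.toFinset_card_le
  have a6 : p.length = 7 := by rw [p.length_support] at a5; omega
  have b := fun i (hi : i < 7) => p.adj_getVert_succ (i := i) (by omega)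
  have b0 : p.getVert 0 = 0 := p.getVert_zero
  have b7 : p.getVert 7 = 7 := by simpa [a6] using p.getVert_length
  obtain ⟨i, hi⟩ := d3 (p.getVert 1) (by simpa using b 0 (by omega)) _ (b 1 (by omega)) _ (b 2 (by omega)) _
    (b 3 (by omega)) _ (b 4 (by omega)) _ (b 5 (by omega)) (by simpa [b7] using b 6 (by omega)) fun v => by
      obtain ⟨k, rfl, hk⟩ := SimpleGraph.Walk.mem_support_iff_exists_getVert.1 (hp v)
      rw [a6] at hk
      interval_cases k <;> simp [b7]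
  have c : ∀ k : Fin 8, p.getVert k = P i k := fun k => by
    rw [hi]; fin_cases k <;> simp [b7]
  refine ⟨i, ?_, c⟩
  rintro rfl
  have e : cost (W i) p = 7 + (ct i i : ℝ) / 20 := by
    have c0 : p.getVert 0 = P i 0 := c 0
    have c1 : p.getVert 1 = P i 1 := c 1
    have c2 : p.getVert 2 = P i 2 := c 2
    have c3 : p.getVert 3 = P i 3 := c 3
    have c4 : p.getVert 4 = P i 4 := c 4
    have c5 : p.getVert 5 = P i 5 := c 5
    have c6 : p.getVert 6 = P i 6 := c 6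
    have c7 : p.getVert 7 = P i 7 := c 7
    rw [cost_eq, a6]
    simp only [sum_range_succ, sum_range_zero, Nat.reduceAdd, c0, c1, c2, c3, c4, c5, c6, c7, W,
      Sym2.lift_mk, ct]
    push_cast
    ring
  have a7 : (ct i (o i) : ℝ) + 4 ≤ ct i i := by exact_mod_cast (d1 i).1
  linarith

theorem result : ∃ α : ℝ, 1 ≤ α ∧ α ≤ 2 ∧ ∃ (n : ℕ) (G : SimpleGraph (Fin n)) (s t : Fin n),
    G.Connected ∧ s ≠ t ∧ ∀ A : Online G s t α, ∃ w, Adm G α w ∧
      (1 + α) / 2 * OPT G s t w < cost w (A.walk w) := by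
  refine ⟨21 / 20, by norm_num, by norm_num, 8, G, 0, 7, by decide +kernel, by decide, fun A => ?_⟩
  by_contra hA
  push Not at hA
  choose f h1 h2 using fun j => ham j _ (A.covers _ (adm j)) (hA _ (adm j))
  have key : ∀ k : ℕ, k ≤ 7 → ∃ j, ∀ i : Fin 8, i.val ≤ k → P (f j) i = P j i := by
    intro k
    induction k with
    | zero =>
      refine fun _ => ⟨0, fun i hi => ?_⟩
      rw [show i = 0 from Fin.ext (by omega), (d4 _).1, (d4 _).1]
    | succ k ih =>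
      intro hk
      obtain ⟨j, hj⟩ := ih (by omega)
      refine ⟨f j, ?_⟩
      have : ∀ m : ℕ, m ≤ k + 1 → ∀ i ≤ m,
          (A.walk (W j)).getVert i = (A.walk (W (f j))).getVert i := by
        intro m
        induction m with
        | zero => intro _ i hi; simp [Nat.le_zero.1 hi]
        | succ m ih2 =>
          intro hm i hi
          rcases Nat.lt_or_ge i (m + 1) with h | h
          · exact ih2 (by omega) i (by omega)
          obtain rfl : i = m + 1 := by omega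
          refine A.causal _ _ (adm _) (adm _) m (ih2 (by omega)) fun i hi v _ => ?_
          have := h2 j ⟨i, by omega⟩
          simp only at this
          rw [this]
          simp only [W, Sym2.lift_mk]
          rw [d2 (f j) j ⟨i, by omega⟩ fun i' hi' => hj i' (by
            have : i'.val ≤ i := hi'
            omega)]
      intro i hi
      rw [← h2, ← h2, this _ le_rfl i hi]
  obtain ⟨j, hj⟩ := key 7 le_rfl
  have inj : ∀ j j', (∀ i, P j i = P j' i) → j = j' := by decide +kernel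
  exact h1 j (inj _ _ fun i => hj i (by omega))

end Pool.Agent.Results.MP_3f3880_lc.Counter
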